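import Mathlib

set_option autoImplicit false

/-!
The Stone-Čech compactification `X = βω` of the countable discrete space is a compact Hausdorff
space which is not perfectly normal and satisfies `T'(X) = T''(X)`.
-/

open Topology Set Filter

namespace Pool.Agent.Results.MP_14365a_gt.BetaOmega

/-- `T'(X)`: the functions `f : X → ℝ` continuous on some dense open set. -/
def TP (X : Type) [TopologicalSpace X] : Set (X → ℝ) :=
  {f | ∃ U : Set X, IsOpen U ∧ Dense U ∧ ContinuousOn f U}

/-- `T''(X)`: the functions `f : X → ℝ` for which there is a continuous `h : X → ℝ` such that the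
cozero set of `h` is dense in `X` and `f` is continuous on it. -/
def TPP (X : Type) [TopologicalSpace X] : Set (X → ℝ) :=
  {f | ∃ h : X → ℝ, Continuous h ∧ Dense {x | h x ≠ 0} ∧ ContinuousOn f {x | h x ≠ 0}}

/-- `X` is perfectly normal: each closed set is the zero set of a continuous real function. -/
def PerfectlyNormal (X : Type) [TopologicalSpace X] : Prop :=
  ∀ C : Set X, IsClosed C → ∃ h : X → ℝ, Continuous h ∧ C = {x | h x = 0}

namespace Aux

theorem isOpen_pure (n : ℕ) : IsOpen ({(pure n : Ultrafilter ℕ)} : Set (Ultrafilter ℕ)) := by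
  have h := ultrafilter_isOpen_basic ({n} : Set ℕ)
  convert h using 1
  ext u
  simp only [mem_singleton_iff, mem_ofPred_eq]
  constructor
  · rintro rfl
    exact Ultrafilter.mem_pure.2 rfl
  · intro hu
    apply Ultrafilter.eq_of_le
    rw [Ultrafilter.coe_pure, le_pure_iff]
    exact hu

/-- free ultrafilters -/
def Free (u : Ultrafilter ℕ) : Prop := (u : Filter ℕ) ≤ atTop

theorem free_or_pure (u : Ultrafilter ℕ) : Free u ∨ ∃ n, u = pure n := by
  by_cases h : (u : Filter ℕ) ≤ atTop
  · exact Or.inl h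
  · right
    rw [← Nat.cofinite_eq_atTop, Filter.not_le] at h
    obtain ⟨s, hs, hs'⟩ := h
    rw [mem_cofinite] at hs
    have h1 : sᶜ ∈ u := Ultrafilter.compl_mem_iff_notMem.2 hs'
    obtain ⟨x, _, hx⟩ := Ultrafilter.eq_pure_of_finite_mem hs h1
    exact ⟨x, hx⟩

/-- the values at the isolated points -/
noncomputable def g (n : ℕ) : Icc (0 : ℝ) 1 :=
  ⟨1 / ((n : ℝ) + 1), by positivity, by
    rw [div_le_one (by positivity)]
    linarith [(Nat.cast_nonneg n : (0 : ℝ) ≤ n)]⟩

/-- a continuous function with cozero set `ω` -/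
noncomputable def G (u : Ultrafilter ℕ) : ℝ := Subtype.val (Ultrafilter.extend g u)

theorem G_cont : Continuous G := continuous_subtype_val.comp (continuous_ultrafilter_extend g)

theorem G_pure (n : ℕ) : G (pure n) = 1 / ((n : ℝ) + 1) := by
  unfold G
  rw [ultrafilter_extend_pure]
  rfl

theorem G_free (u : Ultrafilter ℕ) (hu : Free u) : G u = 0 := by
  have h1 : Tendsto (fun n : ℕ => G (pure n)) u (𝓝 (G u)) :=
    (G_cont.tendsto u).comp (Ultrafilter.tendsto_pure_self u)
  have h2 : Tendsto (fun n : ℕ => G (pure n)) u (𝓝 0) := by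
    simp only [G_pure]
    exact (tendsto_one_div_add_atTop_nhds_zero_nat).mono_left hu
  exact tendsto_nhds_unique h1 h2

theorem coz_G : {u | G u ≠ 0} = range (pure : ℕ → Ultrafilter ℕ) := by
  ext u
  constructor
  · intro hu
    rcases free_or_pure u with h | ⟨n, rfl⟩
    · exact absurd (G_free u h) hu
    · exact ⟨n, rfl⟩
  · rintro ⟨n, rfl⟩
    show G (pure n) ≠ 0
    rw [G_pure]
    positivity

theorem mem_TPP (f : Ultrafilter ℕ → ℝ) : f ∈ TPP (Ultrafilter ℕ) := by
  refine ⟨G, G_cont, ?_, ?_⟩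
  · rw [coz_G]
    exact denseRange_pure
  · rw [coz_G]
    rintro _ ⟨n, rfl⟩
    apply ContinuousAt.continuousWithinAt
    rw [ContinuousAt, (isOpen_singleton_iff_nhds_eq_pure _).1 (isOpen_pure n)]
    exact tendsto_pure_nhds f (pure n)

theorem TP_eq : TP (Ultrafilter ℕ) = TPP (Ultrafilter ℕ) := by
  ext f
  refine ⟨fun _ => mem_TPP f, ?_⟩
  rintro ⟨h, hh, hd, hf⟩
  exact ⟨{x | h x ≠ 0}, isOpen_ne_fun hh continuous_const, hd, hf⟩

/-- a free ultrafilter containing a given infinite set -/
theorem exists_free (S : Set ℕ) (hS : S.Infinite) : ∃ u : Ultrafilter ℕ, Free u ∧ S ∈ u := by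
  have h : NeBot (atTop ⊓ 𝓟 S) := by
    rw [← Nat.cofinite_eq_atTop]
    rwa [cofinite_inf_principal_neBot_iff]
  obtain ⟨u, hu⟩ := Ultrafilter.exists_le (atTop ⊓ 𝓟 S)
  exact ⟨u, hu.trans inf_le_left, le_principal_iff.1 (hu.trans inf_le_right)⟩

theorem not_perfectlyNormal : ¬ PerfectlyNormal (Ultrafilter ℕ) := by
  intro hpn
  obtain ⟨p, hp, -⟩ := exists_free univ infinite_univ
  obtain ⟨h, hh, hz⟩ := hpn {p} isClosed_singleton
  have hp0 : h p = 0 := by
    have : p ∈ {x | h x = 0} := by rw [← hz]; rfl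
    exact this
  have huniq : ∀ u, h u = 0 → u = p := by
    intro u hu
    have : u ∈ ({p} : Set (Ultrafilter ℕ)) := by rw [hz]; exact hu
    exact this
  -- a sequence of natural numbers along which `h` tends to zero
  have hfreq : ∀ k N : ℕ, ∃ n, N < n ∧ |h (pure n)| < 1 / ((k : ℝ) + 1) := by
    intro k N
    have h1 : Tendsto (fun n : ℕ => h (pure n)) p (𝓝 0) := by
      have := (hh.tendsto p).comp (Ultrafilter.tendsto_pure_self p)
      rwa [hp0] at this
    have h2 : ∀ᶠ n in (p : Filter ℕ), |h (pure n)| < 1 / ((k : ℝ) + 1) := by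
      have h3 : |(0 : ℝ)| < 1 / ((k : ℝ) + 1) := by rw [abs_zero]; positivity
      exact (h1.abs).eventually (gt_mem_nhds h3)
    have h4 : ∀ᶠ n in (p : Filter ℕ), N < n := hp (eventually_gt_atTop N)
    obtain ⟨n, hn, hn'⟩ := (h4.and h2).exists
    exact ⟨n, hn, hn'⟩
  choose φ hφ hφ' using hfreq
  let ψ : ℕ → ℕ := fun k => Nat.rec (φ 0 0) (fun k m => φ (k + 1) m) k
  have hψs : ∀ k, ψ (k + 1) = φ (k + 1) (ψ k) := fun k => rfl
  have hψm : StrictMono ψ := strictMono_nat_of_lt_succ fun k => by rw [hψs]; exact hφ _ _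
  have hψh : ∀ k, |h (pure (ψ k))| < 1 / ((k : ℝ) + 1) := by
    intro k
    rcases k with _ | k
    · exact hφ' 0 0
    · rw [hψs]; exact hφ' (k + 1) (ψ k)
  have hψt : Tendsto (fun k => h (pure (ψ k))) atTop (𝓝 0) :=
    squeeze_zero_norm (fun k => (hψh k).le) tendsto_one_div_add_atTop_nhds_zero_nat
  have key : ∀ u : Ultrafilter ℕ, Free u → u.map ψ = p := by
    intro u hu
    apply huniq
    have h1 : Tendsto (fun n : ℕ => h (pure n)) (u.map ψ : Ultrafilter ℕ) (𝓝 (h (u.map ψ))) :=
      (hh.tendsto _).comp (Ultrafilter.tendsto_pure_self _)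
    have h2 : Tendsto (fun k => h (pure (ψ k))) u (𝓝 (h (u.map ψ))) := by
      rw [Ultrafilter.coe_map, tendsto_map'_iff] at h1
      exact h1
    exact tendsto_nhds_unique h2 (hψt.mono_left hu)
  obtain ⟨u, hu, hu'⟩ := exists_free (range fun n : ℕ => 2 * n)
    (infinite_range_of_injective fun a b hab => by simpa using hab)
  obtain ⟨v, hv, hv'⟩ := exists_free (range fun n : ℕ => 2 * n + 1)
    (infinite_range_of_injective fun a b hab => by simpa using hab)
  have h1 : u.map ψ = v.map ψ := (key u hu).trans (key v hv).symm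
  have h2 : ψ '' (range fun n : ℕ => 2 * n) ∈ u.map ψ := by
    rw [Ultrafilter.mem_map]
    exact mem_of_superset hu' (subset_preimage_image _ _)
  have h3 : ψ '' (range fun n : ℕ => 2 * n + 1) ∈ u.map ψ := by
    rw [h1, Ultrafilter.mem_map]
    exact mem_of_superset hv' (subset_preimage_image _ _)
  obtain ⟨x, ⟨c, ⟨a, rfl⟩, ha⟩, ⟨d, ⟨b, rfl⟩, hb⟩⟩ := (u.map ψ).nonempty_of_mem (inter_mem h2 h3)
  have h4 : 2 * a = 2 * b + 1 := hψm.injective (ha.trans hb.symm)
  omega

end Aux

open Aux

/-- **Main result.** There is a compact Hausdorff space `X` (namely `βω`) which is not perfectly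
normal and satisfies `T'(X) = T''(X)`. -/
theorem result : ∃ (X : Type) (_ : TopologicalSpace X), CompactSpace X ∧ T2Space X ∧
    ¬ PerfectlyNormal X ∧ TP X = TPP X :=
  ⟨Ultrafilter ℕ, inferInstance, inferInstance, inferInstance, not_perfectlyNormal, TP_eq⟩

end Pool.Agent.Results.MP_14365a_gt.BetaOmega
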